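import Mathlib
import Pool.Agent.Y307.Cut.Cyc

set_option autoImplicit false

open Finset Filter Topology

namespace Pool.Agent.Results.MP_ee50b4_pr.CyclesNoCutoff

noncomputable section

section

variable {n : ℕ} [NeZero n]

/-- The law at time `t` of the convolution walk on `ℤ/n` started at `0`: the `t`-fold
convolution `μ^{*t}`. -/
def law (μ : ZMod n → ℝ) : ℕ → ZMod n → ℝ
  | 0 => fun x => if x = 0 then 1 else 0
  | t + 1 => fun x => ∑ y, law μ t y * μ (x - y)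

/-- Total variation distance between `μ^{*t}` and the uniform distribution. -/
def tv (μ : ZMod n → ℝ) (t : ℕ) : ℝ := (1 / 2 : ℝ) * ∑ x, |law μ t x - 1 / (n : ℝ)|

/-- `T_mix(ε) = min {t ≥ 0 : ‖μ^{*t} - π‖_TV ≤ ε}`. -/
def Tmix (μ : ZMod n → ℝ) (ε : ℝ) : ℕ := sInf {t : ℕ | tv μ t ≤ ε}

/-- The eigenvalue `∑_x μ(x) e^{2πijx/n}`. -/
def eig (μ : ZMod n → ℝ) (j : ZMod n) : ℂ :=
  ∑ x, (μ x : ℂ) * Complex.exp (2 * Real.pi * Complex.I * (j.val * x.val : ℕ) / n)

/-- The spectral gap `1 - max_{j ≠ 0} |eig j|`. -/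
def gap (μ : ZMod n → ℝ) : ℝ := 1 - ⨆ j : {j : ZMod n // j ≠ 0}, ‖eig μ j‖

/-- The relaxation time. -/
def Trel (μ : ZMod n → ℝ) : ℝ := 1 / gap μ

/-- `μ` is the step distribution of the lazy simple random walk on a Cayley graph of `ℤ/n`:
`μ = (δ_0 + uniform(S)) / 2` for a nonempty set `S = -S` with `0 ∉ S`. -/
def LazySRW (μ : ZMod n → ℝ) : Prop :=
  ∃ S : Finset (ZMod n), S.Nonempty ∧ 0 ∉ S ∧ (∀ s ∈ S, -s ∈ S) ∧
    ∀ x, μ x = (if x = 0 then 1 / 2 else 0) + (if x ∈ S then 1 / (2 * (S.card : ℝ)) else 0)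

/-- The support of `μ` is not contained in a coset of a proper subgroup: the walk is
irreducible and aperiodic. -/
def Ergodic (μ : ZMod n → ℝ) : Prop :=
  ∀ (H : AddSubgroup (ZMod n)) (a : ZMod n), (∀ x, μ x ≠ 0 → x - a ∈ H) → H = ⊤

end

section

variable (n : ℕ → ℕ) [∀ k, NeZero (n k)] (μ : ∀ k, ZMod (n k) → ℝ)

/-- Total variation cutoff. -/
def Cutoff : Prop :=
  ∀ ε : ℝ, 0 < ε → ε < 1 / 2 →
    Tendsto (fun k => (Tmix (μ k) ε : ℝ) / (Tmix (μ k) (1 - ε) : ℝ)) atTop (𝓝 1)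

/-- `T_rel / T_mix(1/2) → 0`. -/
def RatioToZero : Prop :=
  Tendsto (fun k => Trel (μ k) / (Tmix (μ k) (1 / 2) : ℝ)) atTop (𝓝 0)

end

theorem law_eq {n : ℕ} [NeZero n] (μ : ZMod n → ℝ) (t : ℕ) (y : ZMod n) :
    law μ t y = ((Y307.Cut.tr μ) ^ t) 0 y := by
  induction t generalizing y with
  | zero => simp [law, Matrix.one_apply, eq_comm]
  | succ t ih =>
    rw [pow_succ, Matrix.mul_apply]
    simp only [law]
    exact Finset.sum_congr rfl fun z _ => by rw [ih]; rfl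

/-- The Peres conjecture fails for convolution walks on cycles, even for lazy simple random walks
on (unweighted) Cayley graphs: there are such ergodic walks with gap at least `1/8`, with
`T_mix(1/2) > k` (so `T_rel / T_mix(1/2) → 0`) but `T_mix(1999/2000) ≤ k/4 + 17`, hence without
total variation cutoff. -/
theorem result :
    ∃ (n : ℕ → ℕ) (_ : ∀ k, NeZero (n k)) (μ : ∀ k, ZMod (n k) → ℝ),
      Tendsto n atTop atTop ∧
      (∀ k x, 0 ≤ μ k x) ∧ (∀ k, ∑ x, μ k x = 1) ∧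
      (∀ k, Ergodic (μ k)) ∧
      (∀ k, LazySRW (μ k)) ∧
      (∀ k, 1 / 8 ≤ gap (μ k)) ∧ (∀ k ε, 0 < ε → ∃ t, tv (μ k) t ≤ ε) ∧
      (∀ k, k < Tmix (μ k) (1 / 2)) ∧ (∀ k, (Tmix (μ k) (1999 / 2000) : ℝ) ≤ k / 4 + 17) ∧
      RatioToZero n μ ∧ ¬ Cutoff n μ := by
  choose N hN S hTN hS using fun n : ℕ => Helper394.exists_bad (n + 64) (by omega)
  have hP : ∀ k, ∀ f : ZMod (N k) → ℝ,
      (Y307.Cut.tr (Y307.Cut.lz (S k))).mulVec f = Helper394.V (S k) f :=
    fun k f => Y307.Cut.tr_lz_mulVec (S k) f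
  have htv : ∀ k t, tv (Y307.Cut.lz (S k)) t = (1 / 2 : ℝ) *
      ∑ y, |((Y307.Cut.tr (Y307.Cut.lz (S k))) ^ t) 0 y -
        1 / (Fintype.card (ZMod (N k)) : ℝ)| := by
    intro k t
    rw [tv, ZMod.card]
    simp only [law_eq]
  have h1 : ∀ k, ∀ t ≤ k + 64, 1 / 2 < tv (Y307.Cut.lz (S k)) t := by
    intro k t ht
    have h := Helper394.fact_lower (hS k) (hP k) t ht
    rw [htv]
    linarith
  have h2 : ∀ k, tv (Y307.Cut.lz (S k)) (2 * ((k + 64) / 8) + 1) ≤ 1 - 1 / 2000 := by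
    intro k
    rw [htv]
    exact Helper394.fact_upper (hS k) (hP k) ((k + 64) / 8) (by omega) 0
  have h3 : ∀ k ε, 0 < ε → ∃ t, tv (Y307.Cut.lz (S k)) t ≤ ε := by
    intro k ε hε
    have hG : (0 : ℝ) < Fintype.card (ZMod (N k)) := by exact_mod_cast Fintype.card_pos
    obtain ⟨t, ht⟩ := Helper394.fact_conv (hS k) (hP k) (ε / Fintype.card (ZMod (N k)))
      (by positivity)
    refine ⟨t, ?_⟩
    rw [htv]
    calc (1 / 2 : ℝ) * ∑ y, |((Y307.Cut.tr (Y307.Cut.lz (S k))) ^ t) 0 y -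
          1 / (Fintype.card (ZMod (N k)) : ℝ)|
        ≤ (1 / 2 : ℝ) * ∑ _y : ZMod (N k), ε / Fintype.card (ZMod (N k)) := by
          gcongr with y
          exact ht 0 y
      _ = ε / 2 := by
          simp only [Finset.sum_const, Finset.card_univ, nsmul_eq_mul]
          field_simp
      _ ≤ ε := by linarith
  have hgap : ∀ k, 1 / 8 ≤ gap (Y307.Cut.lz (S k)) := by
    intro k
    have : (⨆ j : {j : ZMod (N k) // j ≠ 0}, ‖eig (Y307.Cut.lz (S k)) j‖) ≤ 7 / 8 :=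
      Real.iSup_le (fun j => Y307.Cut.hat_le (hS k) j.1 j.2) (by norm_num)
    rw [gap]
    linarith
  have hlow : ∀ k, k + 64 + 1 ≤ Tmix (Y307.Cut.lz (S k)) (1 / 2) := fun k =>
    Helper394.sInf_gt _ (k + 64) _ le_rfl (h1 k) (h3 k _ (by norm_num))
  refine ⟨N, hN, fun k => Y307.Cut.lz (S k), ?_, fun k x => Y307.Cut.lz_nonneg _ x,
    fun k => Y307.Cut.lz_sum _ (hS k).nonempty, fun k H a h => Y307.Cut.ergodic (hS k) H a h,
    fun k => ⟨S k, (hS k).nonempty, (hS k).zero, (hS k).neg, fun x => rfl⟩, hgap, h3,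
    fun k => lt_of_lt_of_le (by omega) (hlow k), ?_, ?_, ?_⟩
  · exact tendsto_atTop_mono (fun k => by have := hTN k; simp only [id]; omega) tendsto_id
  · intro k
    have h4 : Tmix (Y307.Cut.lz (S k)) (1999 / 2000) ≤ 2 * ((k + 64) / 8) + 1 :=
      Nat.sInf_le (show tv (Y307.Cut.lz (S k)) _ ≤ _ from by
        have := h2 k
        norm_num at this ⊢
        exact this)
    have h5 : 4 * Tmix (Y307.Cut.lz (S k)) (1999 / 2000) ≤ k + 68 := by omega
    have h6 : (4 : ℝ) * Tmix (Y307.Cut.lz (S k)) (1999 / 2000) ≤ k + 68 := by exact_mod_cast h5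
    linarith
  · have hb : Tendsto (fun k : ℕ => (8 : ℝ) / ((k : ℝ) + 1)) atTop (𝓝 0) := by
      have := tendsto_one_div_add_atTop_nhds_zero_nat (𝕜 := ℝ)
      have h := this.const_mul 8
      simpa [div_eq_mul_inv] using h
    refine squeeze_zero (fun k => ?_) (fun k => ?_) hb
    · have := hgap k
      have hg : 0 < gap (Y307.Cut.lz (S k)) := by linarith
      simp only [Trel]
      positivity
    · have hg : 1 / 8 ≤ gap (Y307.Cut.lz (S k)) := hgap k
      have h4 := hlow k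
      have h5 : (k : ℝ) + 1 ≤ Tmix (Y307.Cut.lz (S k)) (1 / 2) := by
        have : k + 1 ≤ Tmix (Y307.Cut.lz (S k)) (1 / 2) := by omega
        exact_mod_cast this
      have h6 : Trel (Y307.Cut.lz (S k)) ≤ 8 := by
        rw [Trel, div_le_iff₀ (by linarith)]
        linarith
      gcongr
  · intro hcut
    exact Helper394.no_cutoff_of (fun k => tv (Y307.Cut.lz (S k))) h1 h2 h3
      (hcut (1 / 2000) (by norm_num) (by norm_num))

end

end Pool.Agent.Results.MP_ee50b4_pr.CyclesNoCutoff
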